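import Pool.Agent.R503.EU.Rate

/-!
# One-sided moments of the azimuthal vorticity: main theorems
-/

set_option autoImplicit false

open MeasureTheory Set Filter
open scoped ENNReal NNReal Topology

namespace Pool.Agent.R503.EU

open Pool.Agent.H708R2.EulerSign Pool.Agent.H708R2.EulerTypeI Pool.Agent.W786.Dir
  Pool.Agent.W786.Max Pool.Agent.H708R2.EulerModes
open Pool.Agent.R462.EU (gam gam_pos energy_cube lower_power int_scale)

/-- The one-sided condition: at the radii `r ≤ 1` with `|ω| r ^ (β + 5/2) ≤ √E L ^ β` the moment of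
the azimuthal vorticity is at least `-(r / L) ^ β |ω|³`. -/
def Swirl (v : V → V) (x : V) (L β E : ℝ) : Prop :=
  ∀ r, 0 < r → r ≤ 1 → nrm (vort v x) * r ^ (β + 5 / 2) ≤ Real.sqrt E * L ^ β →
    -((r / L) ^ β * nrm (vort v x) ^ 3) ≤ moment v (vort v x) x r

/-- The constant. -/
noncomputable def K0 (β : ℝ) : ℝ := (30 + 6 / β) / ∫ z, P 3 z

lemma K0_pos {β : ℝ} (hβ : 0 < β) : 0 < K0 β := by
  have h3 : 0 < ∫ z, P 3 z := P_int_pos 2
  unfold K0
  positivity

/-- The stretching term. -/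
theorem stretch_power {v : V → V} (hv : ContDiff ℝ 2 v) (hdiv : ∀ x, divergence v x = 0)
    (hp : Periodic3 v) {x c : V} {L β E : ℝ} (hL : 0 < L) (hL1 : L ≤ 1) (hβ : 0 < β)
    (hx : Swirl v x L β E) (hE : 0 < E) (hE' : ∫ y in Dom, sq3 (v y - c) ≤ E) :
    vort v x ⬝ᵥ (grad v x).mulVec (vort v x)
      ≤ K0 β * E ^ ((1 - gam β) / 2) * L ^ (-(β * gam β))
        * ((vort v x ⬝ᵥ vort v x) + E) ^ (gam β / 2) * (vort v x ⬝ᵥ vort v x) := by
  have hg := gam_pos hβ
  have hW0 := dot_self_nonneg (vort v x)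
  have hK := K0_pos hβ
  have hLp : 0 < L ^ (-(β * gam β)) := Real.rpow_pos_of_pos hL _
  have hEp : 0 < E ^ ((1 - gam β) / 2) := Real.rpow_pos_of_pos hE _
  by_cases h0 : vort v x = 0
  · rw [h0]
    simp
  have hΩ : 0 < nrm (vort v x) := nrm_pos h0
  set Ω := nrm (vort v x) with hΩd
  set e : V := Ω⁻¹ • vort v x with he
  have hne : nrm e = 1 := by
    rw [he, nrm_smul, abs_of_pos (inv_pos.2 hΩ), ← hΩd]
    exact inv_mul_cancel₀ hΩ.ne'
  set N := Real.sqrt (Ω ^ 2 + E) with hN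
  have hNE : 0 < Ω ^ 2 + E := by positivity
  have hNpos : 0 < N := Real.sqrt_pos.2 hNE
  have hΩN : Ω ≤ N := Real.le_sqrt_of_sq_le (by linarith)
  have hsE : 0 < Real.sqrt E := Real.sqrt_pos.2 hE
  have hEN : Real.sqrt E ≤ N := Real.sqrt_le_sqrt (by nlinarith)
  have hLβ : 0 < L ^ β := Real.rpow_pos_of_pos hL _
  have hLβ1 : L ^ β ≤ 1 := Real.rpow_le_one hL.le hL1 hβ.le
  set a := N / L ^ β with ha
  have ha0 : 0 < a := by positivity
  set q := Real.sqrt E / a with hq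
  have hq0 : 0 < q := by positivity
  have hq1 : q ≤ 1 := by
    rw [hq, div_le_one ha0, ha, le_div_iff₀ hLβ]
    calc Real.sqrt E * L ^ β ≤ N * 1 := by gcongr
      _ = N := mul_one _
  set κ := β + 5 / 2 with hκ
  have hκ0 : 0 < κ := by positivity
  set r := q ^ (1 / κ) with hr
  have hr0 : 0 < r := Real.rpow_pos_of_pos hq0 _
  have hr1 : r ≤ 1 := Real.rpow_le_one hq0.le hq1 (by positivity)
  have hrκ : r ^ κ = q := by
    rw [hr, ← Real.rpow_mul hq0.le, one_div_mul_cancel hκ0.ne', Real.rpow_one]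
  set X := a * r ^ β with hX
  have t1 : Real.sqrt E * r ^ (-(5 / 2) : ℝ) = X := by
    have e1 : Real.sqrt E = r ^ κ * a := by rw [hrκ, hq]; field_simp
    rw [e1, hX, mul_comm (r ^ κ) a, mul_assoc, ← Real.rpow_add hr0]
    congr 2
    rw [hκ]
    ring
  have t2 : Ω * (r / L) ^ β ≤ X := by
    rw [Real.div_rpow hr0.le hL.le, hX, ha]
    have hrb : 0 < r ^ β := Real.rpow_pos_of_pos hr0 _
    calc Ω * (r ^ β / L ^ β) ≤ N * (r ^ β / L ^ β) := by gcongr
      _ = _ := by ring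
  have hβκ : β / κ = 1 - gam β := by
    unfold gam
    rw [hκ]
    field_simp
    ring
  have t3 : X = E ^ ((1 - gam β) / 2) * L ^ (-(β * gam β)) * (Ω ^ 2 + E) ^ (gam β / 2) := by
    have e1 : r ^ β = q ^ (1 - gam β) := by
      rw [hr, ← Real.rpow_mul hq0.le, ← hβκ]
      congr 1
      ring
    have e2 : X = a ^ gam β * Real.sqrt E ^ (1 - gam β) := by
      rw [hX, e1, hq, Real.div_rpow hsE.le ha0.le]
      have e3 : a = a ^ gam β * a ^ (1 - gam β) := by
        rw [← Real.rpow_add ha0]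
        simp
      have e4 : 0 < a ^ (1 - gam β) := Real.rpow_pos_of_pos ha0 _
      calc a * (Real.sqrt E ^ (1 - gam β) / a ^ (1 - gam β))
          = (a ^ gam β * a ^ (1 - gam β)) * (Real.sqrt E ^ (1 - gam β) / a ^ (1 - gam β)) := by
            rw [← e3]
        _ = _ := by field_simp
    have e5 : Real.sqrt E ^ (1 - gam β) = E ^ ((1 - gam β) / 2) := by
      rw [Real.sqrt_eq_rpow, ← Real.rpow_mul hE.le]
      congr 1
      ring
    have e6 : N ^ gam β = (Ω ^ 2 + E) ^ (gam β / 2) := by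
      rw [hN, Real.sqrt_eq_rpow, ← Real.rpow_mul hNE.le]
      congr 1
      ring
    have e7 : (L ^ β) ^ gam β = L ^ (β * gam β) := (Real.rpow_mul hL.le _ _).symm
    rw [e2, ha, Real.div_rpow hNpos.le hLβ.le, e5, e6, e7, Real.rpow_neg hL.le]
    ring
  have hrπ : r ≤ Real.pi := hr1.trans (by linarith [Real.pi_gt_three])
  have hΩr : Ω * r ^ κ ≤ Real.sqrt E * L ^ β := by
    rw [hrκ, hq, ha]
    have h1 : Ω * (Real.sqrt E / (N / L ^ β)) = (Ω / N) * (Real.sqrt E * L ^ β) := by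
      field_simp
    rw [h1]
    have h2 : Ω / N ≤ 1 := (div_le_one hNpos).2 hΩN
    have h3 : 0 ≤ Real.sqrt E * L ^ β := by positivity
    nlinarith
  have hxe : ∀ s, 0 < s → s < r → -((s / L) ^ β * Ω) ≤ moment v e x s := by
    intro s hs hsr
    have h1 : Ω * s ^ (β + 5 / 2) ≤ Real.sqrt E * L ^ β := by
      refine le_trans ?_ hΩr
      have := Real.rpow_le_rpow hs.le hsr.le hκ0.le
      rw [← hκ]
      gcongr
    have h2 := hx s hs (hsr.le.trans hr1) h1
    rw [he, moment_smul, ← hΩd] at *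
    have h4 : -((s / L) ^ β * Ω) = Ω⁻¹ ^ 2 * -((s / L) ^ β * Ω ^ 3) := by field_simp
    rw [h4]
    exact mul_le_mul_of_nonneg_left h2 (by positivity)
  have key := rate_le_one_sided hv hdiv hp hne.le hL hβ hE hE' hr0 hrπ hxe
  have c3 : 0 < ∫ z, P 3 z := P_int_pos 2
  have key2 : rate v e x ≤ K0 β * X := by
    unfold K0
    rw [div_mul_eq_mul_div, le_div_iff₀ c3, mul_comm]
    refine key.trans ?_
    rw [t1]
    have : 0 ≤ 6 / β := by positivity
    nlinarith [mul_le_mul_of_nonneg_left t2 this]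
  have h3 : vort v x ⬝ᵥ (grad v x).mulVec (vort v x) = (vort v x ⬝ᵥ vort v x) * rate v e x := by
    rw [← nrm_sq, ← hΩd]
    have hv0 : vort v x = Ω • e := by
      rw [he, smul_smul, mul_inv_cancel₀ hΩ.ne', one_smul]
    rw [hv0, Matrix.mulVec_smul, smul_dotProduct, dotProduct_smul, smul_eq_mul, smul_eq_mul, rate]
    ring
  rw [h3, ← nrm_sq, ← hΩd]
  calc Ω ^ 2 * rate v e x ≤ Ω ^ 2 * (K0 β * X) :=
        mul_le_mul_of_nonneg_left key2 (by positivity)
    _ = _ := by rw [t3]; ring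

variable {T : ℝ} {u : ℝ → V → V} {p : ℝ → V → ℝ}

/-- The lower bound of the maximum of the vorticity before a singularity. -/
theorem lower (β : ℝ) (hβ : 0 < β) (T E s : ℝ) (u : ℝ → V → V) (p : ℝ → V → ℝ) (c : V)
    (L : ℝ → ℝ) (h : IsC2Solution T u p) (hs : s ∈ Ico 0 T) (hE : 0 < E)
    (hE0 : ∫ x in Icc (fun _ : Fin 3 => -Real.pi) (fun _ => Real.pi),
      (u 0 x - c) ⬝ᵥ (u 0 x - c) ≤ E)
    (hL : ∀ t ∈ Ioo s T, 0 < L t ∧ L t ≤ 1)
    (hi : IntegrableOn (fun t => L t ^ (-(β * gam β))) (Ioo s T))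
    (hal : ∀ᵐ t, t ∈ Ioo s T → ∃ x, IsMaxPt u t x ∧ Swirl (u t) x (L t) β E)
    (hsing : ¬ BKMFinite T u) (x : V) (hx : IsMaxPt u s x) :
    1 ≤ gam β * K0 β * E ^ ((1 - gam β) / 2) * (nrm (vort (u s) x) ^ 2 + E) ^ (gam β / 2)
      * ∫ t in Ioo s T, L t ^ (-(β * gam β)) := by
  have hg := gam_pos hβ
  have hK := K0_pos hβ
  have hEp : 0 < E ^ ((1 - gam β) / 2) := Real.rpow_pos_of_pos hE _
  have h1 := lower_power h hs hE hg
    (ρ := fun t => K0 β * E ^ ((1 - gam β) / 2) * L t ^ (-(β * gam β)))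
    (hi.const_mul _) (fun t ht => by
      have := Real.rpow_pos_of_pos (hL t ht).1 (-(β * gam β))
      positivity) (by
      filter_upwards [hal] with t ht htI
      obtain ⟨y, hy, hy2⟩ := ht htI
      have htT : t ∈ Ioo 0 T := ⟨hs.1.trans_lt htI.1, htI.2⟩
      refine ⟨y, hy, ?_⟩
      exact stretch_power (slice_two h htT) (fun x => h.sol.div_free t ⟨htT.1.le, htT.2⟩ x)
        (h.sol.periodic_u t ⟨htT.1.le, htT.2⟩) (hL t htI).1 (hL t htI).2 hβ hy2 hE
        (energy_cube h.sol c ⟨htT.1.le, htT.2⟩ hE0)) hsing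
  rw [Mx_eq h.sol hs hx, Wq_eq, integral_const_mul] at h1
  have hm : 0 < nrm (vort (u s) x) ^ 2 + E := by positivity
  have h2 : 0 < (nrm (vort (u s) x) ^ 2 + E) ^ (gam β / 2) := Real.rpow_pos_of_pos hm _
  have h3 : (nrm (vort (u s) x) ^ 2 + E) ^ (-(gam β / 2))
      * (nrm (vort (u s) x) ^ 2 + E) ^ (gam β / 2) = 1 := by
    rw [← Real.rpow_add hm]
    simp
  calc (1 : ℝ) = (nrm (vort (u s) x) ^ 2 + E) ^ (-(gam β / 2))
      * (nrm (vort (u s) x) ^ 2 + E) ^ (gam β / 2) := h3.symm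
    _ ≤ (gam β * (K0 β * E ^ ((1 - gam β) / 2) * ∫ t in Ioo s T, L t ^ (-(β * gam β))))
      * (nrm (vort (u s) x) ^ 2 + E) ^ (gam β / 2) := mul_le_mul_of_nonneg_right h1 h2.le
    _ = _ := by ring

/-- The constant of the second part. -/
noncomputable def K1 (β : ℝ) : ℝ := 2 * K0 β ^ (1 / gam β)

/-- The critical length scale. -/
theorem critical (β : ℝ) (hβ : 0 < β) (T E K : ℝ) (u : ℝ → V → V) (p : ℝ → V → ℝ) (c : V)
    (hT : 0 < T) (h : IsC2Solution T u p) (hE : 0 < E) (hK : 0 < K)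
    (hE0 : ∫ x in Icc (fun _ : Fin 3 => -Real.pi) (fun _ => Real.pi),
      (u 0 x - c) ⬝ᵥ (u 0 x - c) ≤ E)
    (hal : ∃ t₀ < T, ∀ᵐ t, t ∈ Ioo t₀ T →
      ∃ x, IsMaxPt u t x ∧ Swirl (u t) x (K * (T - t) ^ (2 / 5 : ℝ)) β E)
    (hsing : ¬ BKMFinite T u) :
    ∀ᶠ s in 𝓝[<] T, ∀ x, IsMaxPt u s x →
      K ^ β ≤ K1 β * E ^ (β / 5) * ((T - s) * nrm (vort (u s) x)) := by
  obtain ⟨t₀, ht₀, hal⟩ := hal
  have hg := gam_pos hβ
  have hK0 := K0_pos hβ
  have hEβ : 0 < E ^ (β / 5) := Real.rpow_pos_of_pos hE _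
  have hKβ : 0 < K ^ β := Real.rpow_pos_of_pos hK _
  have hK0g : 0 < K0 β ^ (1 / gam β) := Real.rpow_pos_of_pos hK0 _
  have ev1 : ∀ᶠ s in 𝓝[<] T, K * (T - s) ^ (2 / 5 : ℝ) < 1 := by
    have h1 : Tendsto (fun s : ℝ => K * (T - s) ^ (2 / 5 : ℝ)) (𝓝[<] T) (𝓝 (K * 0 ^ (2 / 5 : ℝ))) := by
      refine Tendsto.const_mul K ?_
      have h2 : Tendsto (fun s : ℝ => T - s) (𝓝[<] T) (𝓝 0) := by
        have : Tendsto (fun s : ℝ => T - s) (𝓝 T) (𝓝 (T - T)) := by
          exact (continuous_const.sub continuous_id).tendsto T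
        rw [sub_self] at this
        exact this.mono_left nhdsWithin_le_nhds
      exact h2.rpow_const (Or.inr (by norm_num))
    rw [Real.zero_rpow (by norm_num), mul_zero] at h1
    exact h1.eventually (gt_mem_nhds zero_lt_one)
  have ev2 : ∀ᶠ s in 𝓝[<] T,
      K0 β ^ (1 / gam β) * E ^ (β / 5) * ((T - s) * Real.sqrt E) < K ^ β / 2 := by
    have h1 : Tendsto (fun s : ℝ => K0 β ^ (1 / gam β) * E ^ (β / 5) * ((T - s) * Real.sqrt E))
        (𝓝 T) (𝓝 (K0 β ^ (1 / gam β) * E ^ (β / 5) * ((T - T) * Real.sqrt E))) := by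
      refine Continuous.tendsto ?_ T
      fun_prop
    rw [sub_self, zero_mul, mul_zero] at h1
    exact (h1.mono_left nhdsWithin_le_nhds).eventually (gt_mem_nhds (by positivity))
  have ev3 : ∀ᶠ s in 𝓝[<] T, s ∈ Ico (max 0 t₀) T := Ico_mem_nhdsLT (max_lt hT ht₀)
  filter_upwards [ev1, ev2, ev3] with s h1 h2 h3 x hx
  have hs0 : s ∈ Ico 0 T := ⟨(le_max_left _ _).trans h3.1, h3.2⟩
  have hTs : 0 < T - s := sub_pos.2 h3.2
  obtain ⟨i1, i2⟩ := int_scale hβ hK h3.2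
  have hl := lower β hβ T E s u p c (fun t => K * (T - t) ^ (2 / 5 : ℝ)) h hs0 hE hE0 ?_ i1 ?_
    hsing x hx
  · rw [i2] at hl
    set m := nrm (vort (u s) x) ^ 2 + E with hm
    have hm0 : 0 < m := by positivity
    have hmp : 0 < m ^ (gam β / 2) := Real.rpow_pos_of_pos hm0 _
    have hEp : 0 < E ^ ((1 - gam β) / 2) := Real.rpow_pos_of_pos hE _
    have hKp : 0 < K ^ (-(β * gam β)) := Real.rpow_pos_of_pos hK _
    have hTp : 0 < (T - s) ^ gam β := Real.rpow_pos_of_pos hTs _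
    have e1 : gam β * K0 β * E ^ ((1 - gam β) / 2) * m ^ (gam β / 2)
        * (K ^ (-(β * gam β)) * ((T - s) ^ gam β / gam β))
        = K0 β * E ^ ((1 - gam β) / 2) * m ^ (gam β / 2) * K ^ (-(β * gam β))
          * (T - s) ^ gam β := by
      field_simp
    rw [e1] at hl
    have h4 := Real.rpow_le_rpow zero_le_one hl (by positivity : 0 ≤ 1 / gam β)
    rw [Real.one_rpow, Real.mul_rpow (by positivity) (by positivity),
      Real.mul_rpow (by positivity) (by positivity), Real.mul_rpow (by positivity) (by positivity),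
      Real.mul_rpow (by positivity) (by positivity), ← Real.rpow_mul hE.le, ← Real.rpow_mul hm0.le,
      ← Real.rpow_mul hK.le, ← Real.rpow_mul hTs.le] at h4
    have g1 : (1 - gam β) / 2 * (1 / gam β) = β / 5 := by
      unfold gam
      field_simp
      ring
    have g2 : gam β / 2 * (1 / gam β) = 1 / 2 := by field_simp
    have g3 : -(β * gam β) * (1 / gam β) = -β := by field_simp
    have g4 : gam β * (1 / gam β) = 1 := by field_simp
    rw [g1, g2, g3, g4, Real.rpow_one, ← Real.sqrt_eq_rpow, Real.rpow_neg hK.le] at h4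
    have h5 : K ^ β ≤ K0 β ^ (1 / gam β) * E ^ (β / 5) * ((T - s) * Real.sqrt m) := by
      have h6 := mul_le_mul_of_nonneg_left h4 hKβ.le
      rw [mul_one] at h6
      refine h6.trans (le_of_eq ?_)
      field_simp
    have h7 : Real.sqrt m ≤ nrm (vort (u s) x) + Real.sqrt E := by
      refine Real.sqrt_le_iff.2 ⟨by have := nrm_nonneg (vort (u s) x); positivity, ?_⟩
      have h8 := nrm_nonneg (vort (u s) x)
      have h9 := Real.sqrt_nonneg E
      have h10 := Real.sq_sqrt hE.le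
      nlinarith [mul_nonneg h8 h9]
    have h8 : K ^ β ≤ K0 β ^ (1 / gam β) * E ^ (β / 5)
        * ((T - s) * (nrm (vort (u s) x) + Real.sqrt E)) := by
      refine h5.trans ?_
      gcongr
    unfold K1
    nlinarith
  · intro t ht
    have hTt : 0 < T - t := sub_pos.2 ht.2
    refine ⟨by positivity, ?_⟩
    have h5 : (T - t) ^ (2 / 5 : ℝ) ≤ (T - s) ^ (2 / 5 : ℝ) :=
      Real.rpow_le_rpow hTt.le (by linarith [ht.1]) (by norm_num)
    nlinarith
  · filter_upwards [hal] with t ht htI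
    exact ht ⟨((le_max_right _ _).trans h3.1).trans_lt htI.1, htI.2⟩

end Pool.Agent.R503.EU
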