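import Pool.Agent.R503.EU.Main

/-!
# A sufficient pointwise condition
-/

set_option autoImplicit false

open MeasureTheory Set Filter
open scoped ENNReal NNReal Topology

namespace Pool.Agent.R503.EU

open Pool.Agent.H708R2.EulerSign Pool.Agent.H708R2.EulerTypeI Pool.Agent.W786.Dir
  Pool.Agent.W786.Max Pool.Agent.H708R2.EulerModes
open Pool.Agent.R462.EU (P_le_one)

lemma P_int_le : ∫ z, P 2 z ≤ 8 := by
  set Q : Set V := Icc (fun _ => -1) (fun _ => 1) with hQ
  have hz0 : ∀ z ∉ Q, P 2 z = 0 := by
    intro z hz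
    have : 1 ≤ z ⬝ᵥ z := by
      by_contra hlt
      push Not at hlt
      refine hz ⟨fun i => ?_, fun i => ?_⟩
      · exact (abs_le.1 ((abs_le_nrm z i).trans (nrm_lt_one hlt).le)).1
      · exact (abs_le.1 ((abs_le_nrm z i).trans (nrm_lt_one hlt).le)).2
    exact P_zero_of this
  have hvolQ : volume.real Q = 8 := by
    rw [measureReal_def, hQ, Real.volume_Icc_pi_toReal (fun _ => by norm_num)]
    norm_num
  rw [← setIntegral_eq_integral_of_forall_compl_eq_zero hz0]
  calc ∫ z in Q, P 2 z ≤ ∫ _ in Q, (1 : ℝ) := by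
        refine setIntegral_mono_on (P_integrable 1).integrableOn ?_ measurableSet_Icc
          fun z _ => P_le_one 2 z
        exact integrableOn_const (by rw [hQ]; exact isCompact_Icc.measure_lt_top.ne)
    _ = 8 := by rw [setIntegral_const, hvolQ]; simp

lemma cross_smul_left (a : ℝ) (x y : V) : cross (a • x) y = a • cross x y := by
  ext i
  fin_cases i <;> simp [cross] <;> ring

lemma P_neg (n : ℕ) (z : V) : P n (-z) = P n z := by
  unfold P
  rw [neg_dotProduct_neg]

/-- Only the sum of the vorticities at opposite points matters. -/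
lemma moment_symm {v : V → V} (hv : ContDiff ℝ 2 v) (w x : V) (r : ℝ) :
    moment v w x r = ∫ z, (z ⬝ᵥ w) * P 2 z
      * ((vort v (x + r • z) + vort v (x - r • z)) ⬝ᵥ cross z w) / 2 := by
  set f : V → ℝ := fun z => (z ⬝ᵥ w) * P 2 z * (vort v (x + r • z) ⬝ᵥ cross z w) with hf
  have hwc : Continuous (vort v) := vort_cont hv
  have hcr : Continuous fun z : V => cross z w := by
    refine continuous_pi fun i => ?_
    fin_cases i <;> simp [cross] <;> fun_prop
  have hfc : Continuous f := by
    refine (Continuous.mul ?_ (P_cont 2)).mul ?_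
    · exact Continuous.dotProduct continuous_id continuous_const
    · exact Continuous.dotProduct (hwc.comp (by fun_prop)) hcr
  have hfi : Integrable f := by
    refine hfc.integrable_of_hasCompactSupport ?_
    have h1 : HasCompactSupport fun z => (z ⬝ᵥ w) * P 2 z := (P_supp 1).mul_left
    exact h1.mul_right
  have h1 : moment v w x r = ∫ z, f (-z) := by
    rw [integral_neg_eq_self f volume]
    rfl
  have h2 : moment v w x r = ∫ z, (f z + f (-z)) / 2 := by
    rw [integral_div, integral_add hfi hfi.comp_neg, ← h1]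
    have : moment v w x r = ∫ z, f z := rfl
    rw [← this]
    ring
  rw [h2]
  refine integral_congr_ae (Eventually.of_forall fun z => ?_)
  have e1 : cross (-z) w = -cross z w := by
    rw [← neg_one_smul ℝ z, cross_smul_left, neg_one_smul]
  simp only [hf, P_neg, e1, smul_neg, neg_dotProduct, dotProduct_neg, add_dotProduct,
    ← sub_eq_add_neg]
  ring

/-- A one-sided pointwise condition for the azimuthal component of the sum of the vorticities at
opposite points implies the condition for the moments. -/
theorem swirl_of_pointwise {v : V → V} (hv : ContDiff ℝ 2 v) {x : V} {L β E : ℝ} (hL : 0 < L)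
    (hβ : 0 < β) (h : ∀ z, z ⬝ᵥ z ≤ 1 →
      -((nrm z / L) ^ β * nrm z ^ 2 * nrm (vort v x) ^ 3 / 4)
        ≤ (z ⬝ᵥ vort v x) * ((vort v (x + z) + vort v (x - z)) ⬝ᵥ cross z (vort v x))) :
    Swirl v x L β E := by
  intro r hr hr1 _
  set w := vort v x with hw
  have hΩ := nrm_nonneg w
  set B := (r / L) ^ β * nrm w ^ 3 with hB
  have hB0 : 0 ≤ B := by positivity
  rw [moment_symm hv]
  have hpt : ∀ z, -(B / 8) * P 2 z ≤ (z ⬝ᵥ w) * P 2 z
      * ((vort v (x + r • z) + vort v (x - r • z)) ⬝ᵥ cross z w) / 2 := by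
    intro z
    rcases lt_or_ge (z ⬝ᵥ z) 1 with hz | hz
    · have hz1 := (nrm_lt_one hz).le
      have hz0 := nrm_nonneg z
      have h1 := h (r • z) (by
        rw [smul_dotProduct, dotProduct_smul, smul_eq_mul, smul_eq_mul]
        have := dot_self_nonneg z
        nlinarith [mul_le_one₀ hr1 hr.le hr1])
      rw [cross_smul_left, smul_dotProduct, dotProduct_smul, nrm_smul, abs_of_pos hr, smul_eq_mul,
        smul_eq_mul] at h1
      have h2 : (r * nrm z / L) ^ β ≤ (r / L) ^ β := by
        refine Real.rpow_le_rpow (by positivity) ?_ hβ.le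
        refine div_le_div_of_nonneg_right ?_ hL.le
        exact mul_le_of_le_one_right hr.le hz1
      have h2' : 0 ≤ (r * nrm z / L) ^ β := by positivity
      have h3 : nrm z ^ 2 ≤ 1 := pow_le_one₀ hz0 hz1
      have h4 : (r * nrm z / L) ^ β * nrm z ^ 2 * nrm w ^ 3 ≤ B := by
        rw [hB]
        have : (r * nrm z / L) ^ β * nrm z ^ 2 ≤ (r / L) ^ β * 1 := by gcongr
        rw [mul_one] at this
        gcongr
      set S := (vort v (x + r • z) + vort v (x - r • z)) ⬝ᵥ cross z w with hS
      have h5 : -(B / 4) ≤ (z ⬝ᵥ w) * S := by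
        have h6 : r ^ 2 * -(B / 4) ≤ r ^ 2 * ((z ⬝ᵥ w) * S) := by
          calc r ^ 2 * -(B / 4)
              ≤ r ^ 2 * -((r * nrm z / L) ^ β * nrm z ^ 2 * nrm w ^ 3 / 4) := by
                gcongr
            _ = -((r * nrm z / L) ^ β * (r * nrm z) ^ 2 * nrm w ^ 3 / 4) := by ring
            _ ≤ r * (z ⬝ᵥ w) * (r * S) := h1
            _ = _ := by ring
        exact le_of_mul_le_mul_left h6 (by positivity)
      have hp := P_nonneg 2 z
      have h7 := mul_le_mul_of_nonneg_left h5 hp
      nlinarith
    · have e2 : P 2 z = 0 := P_zero_of hz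
      rw [e2]
      simp
  have hwc : Continuous (vort v) := vort_cont hv
  have hcr : Continuous fun z : V => cross z w := by
    refine continuous_pi fun i => ?_
    fin_cases i <;> simp [cross] <;> fun_prop
  have hint : Integrable fun z => (z ⬝ᵥ w) * P 2 z
      * ((vort v (x + r • z) + vort v (x - r • z)) ⬝ᵥ cross z w) / 2 := by
    have hc : Continuous fun z => (z ⬝ᵥ w) * P 2 z
        * ((vort v (x + r • z) + vort v (x - r • z)) ⬝ᵥ cross z w) := by
      refine (Continuous.mul ?_ (P_cont 2)).mul ?_
      · exact Continuous.dotProduct continuous_id continuous_const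
      · refine Continuous.dotProduct (Continuous.add ?_ ?_) hcr
        · exact hwc.comp (by fun_prop)
        · exact hwc.comp (by fun_prop)
    refine (hc.integrable_of_hasCompactSupport ?_).div_const 2
    have h1 : HasCompactSupport fun z => (z ⬝ᵥ w) * P 2 z := (P_supp 1).mul_left
    exact h1.mul_right
  calc -B ≤ -(B / 8) * ∫ z, P 2 z := by
        have := mul_le_mul_of_nonneg_left P_int_le hB0
        linarith
    _ = ∫ z, -(B / 8) * P 2 z := (integral_const_mul _ _).symm
    _ ≤ _ := integral_mono ((P_integrable 1).const_mul _) hint hpt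

end Pool.Agent.R503.EU
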