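import Pool.Agent.R462.EU.Main

/-!
# A one-sided bound of the stretching rate

The stretching rate at a point is bounded from above by the kinetic energy and by one-sided bounds
of the moments of the azimuthal vorticity in the balls around the point.
-/

set_option autoImplicit false

open MeasureTheory Set Filter
open scoped ENNReal NNReal Topology Pointwise

namespace Pool.Agent.R503.EU

open Pool.Agent.H708R2.EulerSign Pool.Agent.H708R2.EulerTypeI Pool.Agent.W786.Dir
  Pool.Agent.W786.Max Pool.Agent.H708R2.EulerModes Pool.Agent.R462.EU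

variable {v : V → V}

/-- The moment of the azimuthal vorticity in the ball of radius `r` with the weight
`(1 - |z|²)₊²`. -/
noncomputable def moment (v : V → V) (w x : V) (r : ℝ) : ℝ :=
  ∫ z, (z ⬝ᵥ w) * P 2 z * (vort v (x + r • z) ⬝ᵥ cross z w)

lemma cross_smul_right (a : ℝ) (x y : V) : cross x (a • y) = a • cross x y := by
  ext i
  fin_cases i <;> simp [cross] <;> ring

lemma moment_smul (a : ℝ) (w x : V) (r : ℝ) : moment v (a • w) x r = a ^ 2 * moment v w x r := by
  unfold moment
  rw [← integral_const_mul]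
  refine integral_congr_ae (Eventually.of_forall fun z => ?_)
  simp only
  rw [cross_smul_right, dotProduct_smul, dotProduct_smul, smul_eq_mul, smul_eq_mul]
  ring

/-- The one-sided bound of the rate at all radii. -/
theorem rate_le_one_sided (hv : ContDiff ℝ 2 v) (hdiv : ∀ x, divergence v x = 0)
    (hp : Periodic3 v) {x₀ e c : V} (he : nrm e ≤ 1) {L β Ω E : ℝ} (hL : 0 < L) (hβ : 0 < β)
    (hE : 0 < E) (hE' : ∫ x in Dom, sq3 (v x - c) ≤ E) {r : ℝ} (hr : 0 < r) (hrπ : r ≤ Real.pi)
    (hx : ∀ s, 0 < s → s < r → -((s / L) ^ β * Ω) ≤ moment v e x₀ s) :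
    (∫ z, P 3 z) * rate v e x₀
      ≤ 30 * (Real.sqrt E * r ^ (-(5 / 2) : ℝ)) + 6 / β * (Ω * (r / L) ^ β) := by
  set I3 := ∫ z, P 3 z with hI3
  set A : ℝ → ℝ := fun r => ∫ z, P 3 z * rate v e (x₀ + r • z) with hA
  set A' : ℝ → ℝ := fun r => ∫ z, P 3 z * fderiv ℝ (rate v e) (x₀ + r • z) z with hA'
  have hAd : ∀ r, HasDerivAt A (A' r) r := fun r =>
    param_deriv (P_cont 3) (P_supp 2) (rate_contDiff hv e) x₀ r
  have hA0 : A 0 = I3 * rate v e x₀ := by
    simp only [hA, zero_smul, add_zero]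
    rw [integral_mul_const]
  have far : |A r| ≤ 30 * (Real.sqrt E * r ^ (-(5 / 2) : ℝ)) := by
    refine (A_far hv c he hr).trans ?_
    have h1 := int_far hv.continuous hp x₀ c hr hrπ hE hE'
    calc 6 / r * ∫ z, P 2 z * nrm (v (x₀ + r • z) - c)
        ≤ 6 / r * (5 * (Real.sqrt E * r ^ (-(3 / 2) : ℝ))) := by gcongr
      _ = 30 * (Real.sqrt E * (r ^ (-(3 / 2) : ℝ) * r⁻¹)) := by ring
      _ = _ := by
        rw [← Real.rpow_neg_one, ← Real.rpow_add hr]
        norm_num
  have near : A 0 - A r ≤ 6 / β * (Ω * (r / L) ^ β) := by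
    obtain ⟨s, hs, hs2⟩ := exists_ratio_hasDerivAt_eq_ratio_slope A A' hr
      (fun r _ => (hAd r).continuousAt.continuousWithinAt) (fun r _ => hAd r)
      (fun s => s ^ β) (fun s => β * s ^ (β - 1))
      (fun s _ => (Real.continuousAt_rpow_const _ _ (Or.inr hβ.le)).continuousWithinAt)
      (fun s hs => Real.hasDerivAt_rpow_const (Or.inl hs.1.ne'))
    have hs0 := hs.1
    have h0 : (0 : ℝ) ^ β = 0 := Real.zero_rpow hβ.ne'
    simp only [h0, sub_zero] at hs2
    have h1 : -(6 * ((s / L) ^ β * Ω)) ≤ s * A' s := by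
      have e1 : s * A' s = 6 * moment v e x₀ s := rate_formula hv hdiv e x₀ s
      rw [e1]
      have := hx s hs0 hs.2
      linarith
    have hsb : 0 < s ^ β := Real.rpow_pos_of_pos hs0 _
    have hrb : 0 < r ^ β := Real.rpow_pos_of_pos hr _
    have hLb : 0 < L ^ β := Real.rpow_pos_of_pos hL _
    have e1 : s ^ (β - 1) = s ^ β / s := by rw [Real.rpow_sub hs0, Real.rpow_one]
    rw [e1] at hs2
    have h2 : (A r - A 0) * (β * s ^ β) = r ^ β * (s * A' s) := by
      field_simp at hs2
      linarith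
    have h3 : (A 0 - A r) * (β * s ^ β) ≤ r ^ β * (6 * ((s / L) ^ β * Ω)) := by
      have h4 := mul_le_mul_of_nonneg_left h1 hrb.le
      have h5 : (A 0 - A r) * (β * s ^ β) = -((A r - A 0) * (β * s ^ β)) := by ring
      rw [h5, h2]
      linarith
    rw [Real.div_rpow hs0.le hL.le] at h3
    rw [Real.div_rpow hr.le hL.le]
    refine le_of_mul_le_mul_right (h3.trans (le_of_eq ?_)) (by positivity : 0 < β * s ^ β)
    field_simp
  rw [← hA0]
  have h1 := (abs_le.1 far).2
  linarith

end Pool.Agent.R503.EU
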